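import Pool.Agent.TH329.RatL1D

/-!
# MP_7607f9_an : `A = A²` for `ℓ¹(ℚ⁺)`, `ℓ¹(ℚ⁺, e^{-t²})` and `ℓ¹(ℚ⁺ ∩ (0,1])`

Every element of each of the three algebras is a sum of two products.
-/

set_option autoImplicit false

open Filter Topology

namespace Pool.Agent.Results.MP_7607f9_an.SumOfTwoProducts

/-- `ℓ¹(S, w)`: the functions `f : S → ℂ` with `∑_{t ∈ S} ‖f t‖ w t < ∞`. -/
def L1 (S : Set ℚ) (w : ℚ → ℝ) : Set (S → ℂ) :=
  {f | Summable fun t : S => ‖f t‖ * w t}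

/-- Convolution on `S ⊆ ℚ` (truncated to `S`):
`(f * g)(t) = ∑ f(s) g(u)` over all pairs `s, u ∈ S` with `s + u = t`. -/
noncomputable def conv (S : Set ℚ) (f g : S → ℂ) (t : S) : ℂ :=
  ∑' p : {p : S × S // (p.1 : ℚ) + (p.2 : ℚ) = (t : ℚ)}, f p.1.1 * g p.1.2

/-- `ℓ¹(S, w)` is closed under convolution (whose defining sums converge absolutely),
each of its elements is the sum of two products of its elements, and it is the linear span of
the products of its elements. -/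
def EqSquare (S : Set ℚ) (w : ℚ → ℝ) : Prop :=
  (∀ f ∈ L1 S w, ∀ g ∈ L1 S w,
    (∀ t : S, Summable fun p : {p : S × S // (p.1 : ℚ) + (p.2 : ℚ) = (t : ℚ)} =>
      ‖f p.1.1 * g p.1.2‖) ∧ conv S f g ∈ L1 S w) ∧
  (∀ a ∈ L1 S w, ∃ b ∈ L1 S w, ∃ c ∈ L1 S w, ∃ u ∈ L1 S w, ∃ v ∈ L1 S w,
    a = conv S b u + conv S c v) ∧
  (Submodule.span ℂ {h | ∃ f ∈ L1 S w, ∃ g ∈ L1 S w, h = conv S f g} : Set (S → ℂ)) = L1 S w

section General

variable {S : Set ℚ} {w : ℚ → ℝ}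

lemma prod_summable (hw : ∀ t, 0 < w t) {f g : S → ℂ} (hf : f ∈ L1 S w) (hg : g ∈ L1 S w) :
    Summable fun p : S × S => (‖f p.1‖ * w p.1) * (‖g p.2‖ * w p.2) := by
  have hf' : Summable fun t : S => ‖f t‖ * w t := hf
  have hg' : Summable fun t : S => ‖g t‖ * w t := hg
  exact hf'.mul_of_nonneg hg' (fun t => mul_nonneg (norm_nonneg _) (hw _).le)
    (fun t => mul_nonneg (norm_nonneg _) (hw _).le)

lemma fiber_bound (hS : ∀ t ∈ S, 0 < t)
    (hsub : ∀ x y : ℚ, 0 < x → 0 < y → w (x + y) ≤ w x * w y) {f g : S → ℂ} (t : S)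
    (p : {p : S × S // (p.1 : ℚ) + (p.2 : ℚ) = (t : ℚ)}) :
    ‖f p.1.1 * g p.1.2‖ * w t ≤ (‖f p.1.1‖ * w p.1.1) * (‖g p.1.2‖ * w p.1.2) := by
  rw [norm_mul]
  have h := hsub p.1.1 p.1.2 (hS _ p.1.1.2) (hS _ p.1.2.2)
  rw [p.2] at h
  calc ‖f p.1.1‖ * ‖g p.1.2‖ * w t
      ≤ ‖f p.1.1‖ * ‖g p.1.2‖ * (w p.1.1 * w p.1.2) :=
        mul_le_mul_of_nonneg_left h (mul_nonneg (norm_nonneg _) (norm_nonneg _))
    _ = _ := by ring

lemma fiber_summable (hw : ∀ t, 0 < w t) (hS : ∀ t ∈ S, 0 < t)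
    (hsub : ∀ x y : ℚ, 0 < x → 0 < y → w (x + y) ≤ w x * w y) {f g : S → ℂ}
    (hf : f ∈ L1 S w) (hg : g ∈ L1 S w) (t : S) :
    Summable fun p : {p : S × S // (p.1 : ℚ) + (p.2 : ℚ) = (t : ℚ)} => ‖f p.1.1 * g p.1.2‖ := by
  have h1 := (prod_summable hw hf hg).comp_injective
    (i := fun p : {p : S × S // (p.1 : ℚ) + (p.2 : ℚ) = (t : ℚ)} => p.1) Subtype.val_injective
  have h2 : Summable fun p : {p : S × S // (p.1 : ℚ) + (p.2 : ℚ) = (t : ℚ)} =>
      ‖f p.1.1 * g p.1.2‖ * w t :=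
    Summable.of_nonneg_of_le (fun p => mul_nonneg (norm_nonneg _) (hw _).le)
      (fun p => fiber_bound hS hsub t p) h1
  refine (h2.mul_right (w t)⁻¹).congr fun p => ?_
  rw [mul_assoc, mul_inv_cancel₀ (hw t).ne', mul_one]

lemma conv_mem (hw : ∀ t, 0 < w t) (hS : ∀ t ∈ S, 0 < t)
    (hsub : ∀ x y : ℚ, 0 < x → 0 < y → w (x + y) ≤ w x * w y) {f g : S → ℂ}
    (hf : f ∈ L1 S w) (hg : g ∈ L1 S w) : conv S f g ∈ L1 S w := by
  have h0 : Summable fun x : (Σ t : S, {p : S × S // (p.1 : ℚ) + (p.2 : ℚ) = (t : ℚ)}) =>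
      (‖f x.2.1.1‖ * w x.2.1.1) * (‖g x.2.1.2‖ * w x.2.1.2) := by
    refine (prod_summable hw hf hg).comp_injective
      (i := fun x : (Σ t : S, {p : S × S // (p.1 : ℚ) + (p.2 : ℚ) = (t : ℚ)}) => x.2.1) ?_
    rintro ⟨t, p, hp⟩ ⟨t', p', hp'⟩ h
    simp only at h
    subst h
    have : t = t' := Subtype.ext (hp.symm.trans hp')
    subst this
    rfl
  have h1 := h0.sigma
  refine Summable.of_nonneg_of_le (fun t => mul_nonneg (norm_nonneg _) (hw _).le) (fun t => ?_) h1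
  have h2 := fiber_summable hw hS hsub hf hg t
  calc ‖conv S f g t‖ * w t
      ≤ (∑' p : {p : S × S // (p.1 : ℚ) + (p.2 : ℚ) = (t : ℚ)}, ‖f p.1.1 * g p.1.2‖) * w t :=
        mul_le_mul_of_nonneg_right (norm_tsum_le_tsum_norm h2) (hw _).le
    _ = ∑' p : {p : S × S // (p.1 : ℚ) + (p.2 : ℚ) = (t : ℚ)}, ‖f p.1.1 * g p.1.2‖ * w t := by
        rw [tsum_mul_right]
    _ ≤ _ := (h2.mul_right (w t)).tsum_le_tsum (fun p => fiber_bound hS hsub t p)
        (h0.sigma_factor t)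

lemma add_mem {f g : S → ℂ} (hw : ∀ t, 0 < w t) (hf : f ∈ L1 S w) (hg : g ∈ L1 S w) :
    f + g ∈ L1 S w := by
  refine Summable.of_nonneg_of_le (fun t => mul_nonneg (norm_nonneg _) (hw _).le) (fun t => ?_)
    (Summable.add hf hg)
  have h := mul_le_mul_of_nonneg_right (norm_add_le (f t) (g t)) (hw t).le
  rw [add_mul] at h
  exact h

lemma smul_mem {f : S → ℂ} (c : ℂ) (hf : f ∈ L1 S w) : c • f ∈ L1 S w := by
  refine (Summable.mul_left ‖c‖ hf).congr fun t => ?_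
  rw [Pi.smul_apply, norm_smul, mul_assoc]

lemma span_eq (hw : ∀ t, 0 < w t) (hS : ∀ t ∈ S, 0 < t)
    (hsub : ∀ x y : ℚ, 0 < x → 0 < y → w (x + y) ≤ w x * w y)
    (h : ∀ a ∈ L1 S w, ∃ b ∈ L1 S w, ∃ c ∈ L1 S w, ∃ u ∈ L1 S w, ∃ v ∈ L1 S w,
      a = conv S b u + conv S c v) :
    (Submodule.span ℂ {h | ∃ f ∈ L1 S w, ∃ g ∈ L1 S w, h = conv S f g} : Set (S → ℂ)) =
      L1 S w := by
  apply Set.Subset.antisymm
  · intro x hx
    refine Submodule.span_induction (p := fun x _ => x ∈ L1 S w) ?_ ?_ ?_ ?_ hx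
    · rintro x ⟨f, hf, g, hg, rfl⟩
      exact conv_mem hw hS hsub hf hg
    · show Summable fun t : S => ‖(0 : S → ℂ) t‖ * w t
      simp [summable_zero]
    · intro x y _ _ hx hy
      exact add_mem hw hx hy
    · intro c x _ hx
      exact smul_mem c hx
  · intro a ha
    obtain ⟨b, hb, c, hc, u, hu, v, hv, rfl⟩ := h a ha
    exact Submodule.add_mem _ (Submodule.subset_span ⟨b, hb, u, hu, rfl⟩)
      (Submodule.subset_span ⟨c, hc, v, hv, rfl⟩)

/-- transfer from functions on `ℚ` vanishing on `(-∞, 0]` -/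
lemma conv_restrict (hS' : ∀ t ∈ S, ∀ x : ℚ, 0 < x → x < t → x ∈ S)
    (b u : ℚ → ℂ) (hb : ∀ x ≤ 0, b x = 0) (hu : ∀ x ≤ 0, u x = 0) (t : S) :
    ∑' x : ℚ, b x * u (t - x) = conv S (fun x => b x) (fun x => u x) t := by
  unfold conv
  have hinj : Function.Injective
      (fun p : {p : S × S // (p.1 : ℚ) + (p.2 : ℚ) = (t : ℚ)} => (p.1.1 : ℚ)) := by
    rintro ⟨⟨p1, p2⟩, hp⟩ ⟨⟨q1, q2⟩, hq⟩ h
    simp only at h hp hq
    have h1 : p1 = q1 := Subtype.ext h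
    have h2 : p2 = q2 := Subtype.ext (by linarith)
    subst h1; subst h2; rfl
  have hsupp : Function.support (fun x : ℚ => b x * u (t - x)) ⊆ Set.range
      (fun p : {p : S × S // (p.1 : ℚ) + (p.2 : ℚ) = (t : ℚ)} => (p.1.1 : ℚ)) := by
    intro x hx
    have hx0 : 0 < x := by
      by_contra hcon
      exact hx (by show b x * u (t - x) = 0; rw [hb x (not_lt.1 hcon), zero_mul])
    have hx1 : 0 < (t : ℚ) - x := by
      by_contra hcon
      exact hx (by show b x * u (t - x) = 0; rw [hu _ (not_lt.1 hcon), mul_zero])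
    exact ⟨⟨(⟨x, hS' t t.2 x hx0 (by linarith)⟩, ⟨t - x, hS' t t.2 _ hx1 (by linarith)⟩),
      by simp⟩, rfl⟩
  rw [← hinj.tsum_eq hsupp]
  refine tsum_congr fun p => ?_
  have : (t : ℚ) - (p.1.1 : ℚ) = p.1.2 := by
    have := p.2
    linarith
  rw [this]

end General

open Pool.Agent.TH329.RatL1 in
theorem eqSquare_of {lam : ℝ} (hlam : lam = 0 ∨ lam = 1) {S : Set ℚ} (hS : ∀ t ∈ S, 0 < t)
    (hS' : ∀ t ∈ S, ∀ x : ℚ, 0 < x → x < t → x ∈ S) : EqSquare S (wt lam) := by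
  classical
  have hl : 0 ≤ lam := by rcases hlam with h | h <;> rw [h]; norm_num
  have hsub : ∀ x y : ℚ, 0 < x → 0 < y → wt lam (x + y) ≤ wt lam x * wt lam y :=
    fun x y hx hy => wt_sub hl x y hx hy
  have hrep : ∀ a ∈ L1 S (wt lam), ∃ b ∈ L1 S (wt lam), ∃ c ∈ L1 S (wt lam),
      ∃ u ∈ L1 S (wt lam), ∃ v ∈ L1 S (wt lam), a = conv S b u + conv S c v := by
    intro a ha
    have ha' : Summable fun t : S => ‖a t‖ * wt lam t := ha
    set A : Pos → ℂ := fun q => if h : (q : ℚ) ∈ S then a ⟨q, h⟩ else 0 with hA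
    have hAs : Summable fun q : Pos => ‖A q‖ * wt lam q := by
      have hinj : Function.Injective (fun t : S => (⟨t, hS t t.2⟩ : Pos)) := by
        intro x y h
        simp only [Subtype.mk.injEq] at h
        exact Subtype.ext h
      refine (hinj.summable_iff ?_).1 (ha'.congr fun t => ?_)
      · intro q hq
        have : (q : ℚ) ∉ S := fun h => hq ⟨⟨q, h⟩, rfl⟩
        simp [hA, this]
      · simp [hA]
    obtain ⟨b, c, u, v, hb0, hc0, hu0, hv0, hb, hc, hu, hv, hat⟩ := two_products hlam A hAs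
    have hres : ∀ f : ℚ → ℂ, (Summable fun x : ℚ => ‖f x‖ * wt lam x) →
        (fun x : S => f x) ∈ L1 S (wt lam) := by
      intro f hf
      exact hf.comp_injective (i := fun x : S => (x : ℚ)) Subtype.val_injective
    refine ⟨_, hres b hb, _, hres c hc, _, hres u hu, _, hres v hv, ?_⟩
    funext t
    have h1 := hat ⟨t, hS t t.2⟩
    have h2 : A ⟨t, hS t t.2⟩ = a t := by simp [hA]
    rw [h2] at h1
    rw [h1, Pi.add_apply, ← conv_restrict hS' b u hb0 hu0 t,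
      ← conv_restrict hS' c v hc0 hv0 t]
  exact ⟨fun f hf g hg => ⟨fun t => fiber_summable (wt_pos lam) hS hsub hf hg t,
    conv_mem (wt_pos lam) hS hsub hf hg⟩, hrep, span_eq (wt_pos lam) hS hsub hrep⟩

/-- **Q2 of MP_7607f9_an, answered positively for all three algebras.**
For `A = ℓ¹(ℚ⁺)`, `A = ℓ¹(ℚ⁺, e^{-t²})` and `A = ℓ¹(ℚ⁺ ∩ (0,1])`, every element of `A` is a sum
of two products of elements of `A`; in particular `A = A²`. -/
theorem result :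
    EqSquare (Set.Ioi 0) (fun _ => 1) ∧
    EqSquare (Set.Ioi 0) (fun t => Real.exp (-(t : ℝ) ^ 2)) ∧
    EqSquare (Set.Ioc 0 1) (fun _ => 1) := by
  have h0 : Pool.Agent.TH329.RatL1.wt 0 = fun _ => 1 := by
    funext t
    simp [Pool.Agent.TH329.RatL1.wt]
  have h1 : Pool.Agent.TH329.RatL1.wt 1 = fun t : ℚ => Real.exp (-(t : ℝ) ^ 2) := by
    funext t
    simp [Pool.Agent.TH329.RatL1.wt]
  refine ⟨?_, ?_, ?_⟩
  · rw [← h0]
    exact eqSquare_of (Or.inl rfl) (fun t ht => ht) (fun t _ x hx _ => hx)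
  · rw [← h1]
    exact eqSquare_of (Or.inr rfl) (fun t ht => ht) (fun t _ x hx _ => hx)
  · rw [← h0]
    exact eqSquare_of (Or.inl rfl) (fun t ht => ht.1)
      (fun t ht x hx hxt => ⟨hx, hxt.le.trans ht.2⟩)

end Pool.Agent.Results.MP_7607f9_an.SumOfTwoProducts
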